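import Pool.Agent.Results.MP_ddcbd8_an.SingularDensities

/-!
# MP_ddcbd8_an, Q2: if the Bernoulli convolution is absolutely continuous then `f_n → h` a.e.

`P g (x) = (β/2) (g (β x) + g (β x - 1))`, so `f_n = P^n f_0`. For a Lebesgue point `x` of the
density `h` and `ρ` with `|ρ y| ≤ A / (1 + y²)` one has
`P^n (ν * ρ) (x) = ∫ β^n ρ (β^n (x - z)) dν(z) → h(x) ∫ ρ` (`S_CONV`, `S_LEB`): `Good β x c`, `c = h x`.
For `g = IF f` (inverse Fourier transform of `f ∈ C²_c`) and `N` the Fourier transform of `ν`: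
if `N ≠ 0` on the support of `f` then `g = ν * IF (f / N)` (`S_FAR`). The zeros `ζ ≠ 0` of `N` are
treated by `P^k (IF f) = IF ((f Ph_k) (· / β^k))`, `Ph_k ξ = ∏_{i<k} ph (β^i ξ)`, and `Ph_k ζ → 0`
(`S_ARI`, arithmetic, uses the Riemann-Lebesgue lemma). Then approximation (`S_APX`, `S_SAND`).
-/

set_option autoImplicit false

open MeasureTheory Filter Topology Set

namespace Pool.Agent.Run7.h982.BC

open Pool.Agent.Results.MP_ddcbd8_an.SingularDensities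

/-- The transfer operator. -/
noncomputable def P (β : ℝ) (g : ℝ → ℂ) : ℝ → ℂ :=
  fun x => ((β / 2 : ℝ) : ℂ) * (g (β * x) + g (β * x - 1))

/-- `e^{2 π i t}`. -/
noncomputable def E (t : ℝ) : ℂ := Complex.exp (((2 * Real.pi * t : ℝ) : ℂ) * Complex.I)

/-- The inverse Fourier transform. -/
noncomputable def IF (f : ℝ → ℂ) (y : ℝ) : ℂ := ∫ ξ, f ξ * E (ξ * y)

/-- The Fourier transform of the Bernoulli convolution. -/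
noncomputable def N (β : ℝ) (ξ : ℝ) : ℂ := ∫ z, E (-(ξ * z)) ∂(bernoulliConv β)

noncomputable def ph (ξ : ℝ) : ℂ := (1 + E (-ξ)) / 2

noncomputable def Ph (β : ℝ) (k : ℕ) (ξ : ℝ) : ℂ := ∏ i ∈ Finset.range k, ph (β ^ i * ξ)

/-- `C²` with compact support. -/
def CC (f : ℝ → ℂ) : Prop := ContDiff ℝ 2 f ∧ HasCompactSupport f

/-- `ν * ρ`. -/
noncomputable def conv (β : ℝ) (ρ : ℝ → ℂ) (y : ℝ) : ℂ := ∫ z, ρ (y - z) ∂(bernoulliConv β)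

/-- Good points. -/
def Good (β x c : ℝ) : Prop :=
  0 ≤ c ∧ ∀ ρ : ℝ → ℂ, Continuous ρ → (∃ A : ℝ, ∀ y, ‖ρ y‖ ≤ A / (1 + y ^ 2)) →
    Tendsto (fun n : ℕ => (P β)^[n] (conv β ρ) x) atTop (𝓝 ((c : ℂ) * ∫ y, ρ y))

noncomputable def Bn (f : ℝ → ℂ) : ℝ := (∫ ξ, ‖f ξ‖) + ∫ ξ, ‖deriv (deriv f) ξ‖

/-- INT: self-similarity for integrals (from `self_similar`: `ν` is half the sum of its images
under `z ↦ z / β` and `z ↦ (1 + z) / β`); `ν` is a probability measure on `[0, 1/(β-1)]`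
(`expansion_mem`). -/
def S_INT : Prop :=
  ∀ β : ℝ, 1 < β → IsProbabilityMeasure (bernoulliConv β) ∧
    (∀ᵐ z ∂(bernoulliConv β), z ∈ Icc 0 (1 / (β - 1))) ∧
    ∀ F : ℝ → ℂ, Continuous F → (∃ C : ℝ, ∀ z, ‖F z‖ ≤ C) →
      ∫ z, F z ∂(bernoulliConv β) = (1 / 2) * ∫ z, F (z / β) ∂(bernoulliConv β) +
        (1 / 2) * ∫ z, F ((1 + z) / β) ∂(bernoulliConv β)

/-- CONV (uses `S_INT`): induction on `n` (for all `ρ`): `P (conv β ρ) = conv β (y ↦ β ρ (β y))`, by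
`S_INT` with `F z = β ρ (β (x - z))`; `Function.iterate_succ_apply`. -/
def S_CONV : Prop :=
  ∀ β : ℝ, 1 < β → ∀ ρ : ℝ → ℂ, Continuous ρ → (∃ C : ℝ, ∀ y, ‖ρ y‖ ≤ C) → ∀ (n : ℕ) (x : ℝ),
    (P β)^[n] (conv β ρ) x = ∫ z, ((β ^ n : ℝ) : ℂ) * ρ (β ^ n * (x - z)) ∂(bernoulliConv β)

/-- LEB: Lebesgue points. With `h = (ν.rnDeriv volume).toReal` integrable, `ν = h dz`. For almost
every `x`: `δ(r) = r⁻¹ ∫_{|z-x| ≤ r} |h z - h x| dz → 0` as `r → 0+` (Mathlib: Lebesgue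
differentiation, `VitaliFamily.ae_tendsto_average_norm_sub`,
`IsUnifLocDoublingMeasure.ae_tendsto_average_norm_sub`) and `δ` is bounded on `(0, ∞)`. With `ε = β^{-n}`:
`|∫ β^n ρ(β^n (x-z)) h(z) dz - h(x) ∫ ρ| ≤ ∫ |h(x - ε w) - h(x)| A/(1+w²) dw ≤
A Σ_{j ≥ 0} 4^{1-j} ε⁻¹ ∫_{|z-x| ≤ ε 2^j} |h z - h x| dz = A Σ_j 4^{1-j} 2^j δ(ε 2^j) → 0`
(`tendsto_tsum_of_dominated_convergence`). -/
def S_LEB : Prop :=
  ∀ (ν : Measure ℝ) [IsFiniteMeasure ν] (β : ℝ), 1 < β → ν ≪ volume → ∀ᵐ x ∂(volume : Measure ℝ),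
    ∀ ρ : ℝ → ℂ, Continuous ρ → (∃ A : ℝ, ∀ y, ‖ρ y‖ ≤ A / (1 + y ^ 2)) →
      Tendsto (fun n : ℕ => ∫ z, ((β ^ n : ℝ) : ℂ) * ρ (β ^ n * (x - z)) ∂ν) atTop
        (𝓝 ((((ν.rnDeriv volume x).toReal : ℝ) : ℂ) * ∫ y, ρ y))

/-- DOM (uses `S_INT`): with `L = 1/(β-1)`, `q y = κ / (1 + (κ y)²)` and `κ ≤ 1`:
`q y ≤ 2 (1 + L²) q (y - z)` for `z ∈ [0, L]`, so `q y ≤ 2 (1 + L²) (conv β q) y` (real part), and
`‖P^n g x‖ ≤ P^n ‖g‖ x ≤ 2 A (1 + L²) P^n (conv β q) x → 2 A (1 + L²) c π` by `Good`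
(`integral_univ_inv_one_add_sq`). So `C = 2 (1 + L²) π` (for `A > 0` the limit is `< A C (c + 1)`; for
`A = 0` all is `0`). -/
def S_DOM : Prop :=
  ∀ β : ℝ, 1 < β → ∃ C : ℝ, 0 < C ∧ ∀ x c : ℝ, Good β x c → ∀ κ : ℝ, 0 < κ → κ ≤ 1 →
    ∀ A : ℝ, 0 ≤ A → ∀ g : ℝ → ℂ, (∀ y, ‖g y‖ ≤ A * (κ / (1 + (κ * y) ^ 2))) →
      ∀ᶠ n : ℕ in atTop, ‖(P β)^[n] g x‖ ≤ A * (C * (c + 1))

/-- FT: `IF f = 𝓕⁻ f` (`Real.fourierInv_eq'`), `(1 + 4 π² y²) IF f y = IF (f - f'') y`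
(`Real.fourier_deriv` or integration by parts); Fourier inversion at `0`. -/
def S_FT : Prop :=
  ∀ f : ℝ → ℂ, CC f → Continuous (IF f) ∧ (∀ y, ‖IF f y‖ ≤ Bn f / (1 + y ^ 2)) ∧
    (∫ y, IF f y) = f 0

/-- HAT (uses `S_INT`): `N` is `C²` (the measure has compact support: `Real.contDiff_fourier` for
the integral against a measure, or `hasDerivAt_integral_of_dominated_loc_of_deriv_le` twice). -/
def S_HAT : Prop :=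
  ∀ β : ℝ, 1 < β → ContDiff ℝ 2 (N β) ∧ N β 0 = 1 ∧ ∀ ξ, N β ξ = ph (ξ / β) * N β (ξ / β)

/-- ZER (uses `S_HAT`): `N ξ = ∏_{i=1}^k ph (ξ / β^i) N (ξ / β^k)` and `N ≠ 0` near `0`; `ph ξ = 0` iff
`ξ + 1/2` is an integer. -/
def S_ZER : Prop := ∀ β : ℝ, 1 < β → ∀ M : ℝ, {ξ : ℝ | N β ξ = 0 ∧ |ξ| ≤ M}.Finite

/-- PIF: induction on `k` for all `f` (integrable is enough), or directly:
`P (IF f) y = β ∫ f ξ ph ξ E (ξ β y) dξ`. -/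
def S_PIF : Prop :=
  ∀ β : ℝ, 1 < β → ∀ f : ℝ → ℂ, CC f → ∀ (k : ℕ) (y : ℝ),
    (P β)^[k] (IF f) y = ∫ ξ, ((β ^ k : ℝ) : ℂ) * (f ξ * Ph β k ξ) * E (β ^ k * ξ * y)

/-- FAR (uses `S_FT`, `S_HAT`, `S_INT`): `f / N` is `CC`; `ρ = IF (f / N)`; Fubini gives
`conv β ρ = IF f`; `Good` and `∫ ρ = (f / N) 0 = f 0`. -/
def S_FAR : Prop :=
  ∀ β x c : ℝ, 1 < β → Good β x c → ∀ f : ℝ → ℂ, CC f → (∀ ξ ∈ tsupport f, N β ξ ≠ 0) →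
    Tendsto (fun n : ℕ => (P β)^[n] (IF f) x) atTop (𝓝 ((c : ℂ) * f 0))

/-- NUM: let `r = β^I` be rational, `α = β^j t`, `j` any natural number; `‖r^l α‖ → 0` (distance to
the integers). With `n_l = round (r^l α)`, `ε_l = r^l α - n_l`, `r = u / v`: `v n_{l+1} - u n_l =
u ε_l - v ε_{l+1} → 0` is an integer, so `= 0` for `l ≥ L`; then `ε_{l+1} = r ε_l` for `l ≥ L`,
bounded, so `ε_L = 0`: `β^j t` is rational (times a power of `r`), for every `j`, and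
`n_{L+m} = r^m n_L ≠ 0` are integers for all `m`, so `r` is an integer. So `β` is rational and `β^I`
an integer, so `β` is an integer, but `1 < β < 2`. -/
def S_NUM : Prop :=
  ∀ β t : ℝ, 1 < β → β < 2 → t ≠ 0 →
    Tendsto (fun i : ℕ => β ^ i * t - (round (β ^ i * t) : ℝ)) atTop (𝓝 0) →
      ∀ I : ℕ, 1 ≤ I → Irrational (β ^ I)

/-- PRO: elementary products. If `0 < a i ≤ 1`, the products of `a` are bounded below by `p > 0`,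
`0 < b i ≤ 1` and `1 - b i ≤ 4 (1 - a i)`, then the products of `b` are bounded below. (`∑ (1 - a i)
≤ - log p`; `1 - b i ≤ 1/2` for large `i`, and `b ≥ exp (-2 (1 - b))` for `b ≥ 1/2`.) -/
def S_PRO : Prop :=
  ∀ (a b : ℕ → ℝ) (p : ℝ), 0 < p → (∀ i, 0 < a i ∧ a i ≤ 1) → (∀ i, 0 < b i ∧ b i ≤ 1) →
    (∀ i, 1 - b i ≤ 4 * (1 - a i)) → (∀ k, p ≤ ∏ i ∈ Finset.range k, a i) →
      ∃ q : ℝ, 0 < q ∧ ∀ k, q ≤ ∏ i ∈ Finset.range k, b i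

/-- ARI (uses `S_HAT`, `S_NUM`, `S_PRO`; the Riemann-Lebesgue lemma
`Real.tendsto_integral_exp_smul_cocompact` for the density gives `N β ξ → 0` as `|ξ| → ∞`).
`|ph ξ| = |cos (π ξ)|`. Suppose `Ph β k ζ` does not tend to `0`; then `|Ph β k ζ| ≥ p > 0` for all `k`
(decreasing), so `|ph (β^i ζ)| → 1` and `‖β^i ζ‖ → 0`. By `S_NUM` all `β^I`, `I ≥ 1`, are irrational, so
at most one integer `i ∈ ℤ` has `β^i ζ` rational. `ζ' = ζ` if no `i ∈ ℤ` has `β^i ζ ∈ ℤ + 1/2`, else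
`ζ' = 2 ζ`; then no `i ∈ ℤ` has `β^i ζ' ∈ ℤ + 1/2`. So `N β ζ' ≠ 0` (`N β ζ' = ∏_{i=1}^k ph (ζ'/β^i)
N β (ζ'/β^k)`, `N` continuous at `0`, `N 0 = 1`), and `|Ph β k ζ'| ≥ q > 0` by `S_PRO`
(`1 - |cos 2x| ≤ 4 (1 - |cos x|)`). So `|N β (β^k ζ')| = |Ph β k ζ'| |N β ζ'| ≥ q |N β ζ'|`,
which contradicts Riemann-Lebesgue. -/
def S_ARI : Prop :=
  ∀ β : ℝ, 1 < β → β < 2 → bernoulliConv β ≪ volume → ∀ ζ : ℝ, ζ ≠ 0 →
    Tendsto (fun k : ℕ => Ph β k ζ) atTop (𝓝 0)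

/-- NEAR (uses `S_DOM`, `S_FT`, `S_PIF`): `χ ξ = B ((ξ - ζ) / δ)` with a smooth bump `B` (`1` near `0`,
`0` outside `[-1, 1]`), `δ < |ζ|`. By `S_PIF` and `ξ = ζ + δ s`:
`|P^k (IF (f χ)) y| = β^k δ |IF b_δ (δ β^k y)| ≤ Bn b_δ κ / (1 + (κ y)²)`, `κ = δ β^k ≤ 1`,
`b_δ s = (f Ph_k) (ζ + δ s) B s`, and `Bn b_δ → |(f Ph_k) ζ| Bn B` as `δ → 0` (dominated convergence). By
`S_DOM` (for `P^k (IF (f χ))`, `P^n = P^{n-k} P^k`): `|P^n (IF (f χ)) x| ≤ Bn b_δ C (c + 1)` for large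
`n`. Choose `k` and then `δ`. -/
def S_NEAR : Prop :=
  ∀ β x c : ℝ, 1 < β → Good β x c → ∀ ζ : ℝ, ζ ≠ 0 →
    Tendsto (fun k : ℕ => Ph β k ζ) atTop (𝓝 0) → ∀ f : ℝ → ℂ, CC f → ∀ ε : ℝ, 0 < ε →
      ∃ χ : ℝ → ℂ, ContDiff ℝ 2 χ ∧ χ 0 = 0 ∧ (∀ᶠ ξ in 𝓝 ζ, χ ξ = 1) ∧
        ∀ᶠ n : ℕ in atTop, ‖(P β)^[n] (IF (fun ξ => f ξ * χ ξ)) x‖ ≤ ε

/-- BAND (uses `S_FAR`, `S_NEAR`, `S_ZER`, `S_HAT`): induction on a finite set `Z` that contains the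
zeros of `N` in `tsupport f`: `f = f χ + f (1 - χ)`, and `P^n`, `IF` are linear. -/
def S_BAND : Prop :=
  ∀ β x c : ℝ, 1 < β → Good β x c →
    (∀ ζ : ℝ, ζ ≠ 0 → Tendsto (fun k : ℕ => Ph β k ζ) atTop (𝓝 0)) → ∀ f : ℝ → ℂ, CC f →
      Tendsto (fun n : ℕ => (P β)^[n] (IF f) x) atTop (𝓝 ((c : ℂ) * f 0))

/-- APX: `f ξ = v̂ ξ χ (ξ / M)`, `v̂` the Fourier transform of `v` (a Schwartz function), `χ` a smooth
bump, `M` large: `v - IF f = IF (v̂ (1 - χ (·/M)))`, and `(1 + 4 π² y²) |IF g y| ≤ ∫ |g| + ∫ |g''|`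
for Schwartz functions `g`, which is small for large `M`. -/
def S_APX : Prop :=
  ∀ v : ℝ → ℝ, ContDiff ℝ ((⊤ : ℕ∞) : WithTop ℕ∞) v → HasCompactSupport v → ∀ ε : ℝ, 0 < ε →
    ∃ f : ℝ → ℂ, CC f ∧ (∀ y, ‖(v y : ℂ) - IF f y‖ ≤ ε / (1 + y ^ 2)) ∧ f 0 = ∫ y, (v y : ℂ)

/-- SMO (uses `S_DOM`, `S_BAND`, `S_APX`): `P^n v = P^n (IF f) + P^n (v - IF f)`. -/
def S_SMO : Prop :=
  ∀ β x c : ℝ, 1 < β → Good β x c →
    (∀ ζ : ℝ, ζ ≠ 0 → Tendsto (fun k : ℕ => Ph β k ζ) atTop (𝓝 0)) →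
    ∀ v : ℝ → ℝ, ContDiff ℝ ((⊤ : ℕ∞) : WithTop ℕ∞) v → HasCompactSupport v →
      Tendsto (fun n : ℕ => (P β)^[n] (fun y => (v y : ℂ)) x) atTop (𝓝 ((c : ℂ) * ∫ y, (v y : ℂ)))

/-- SAND: `f β n x = P^n (f β 0) x` (as complex numbers), `P^n` is monotone on real functions, and
`v₋ ≤ f β 0 ≤ v₊` with smooth bumps (`ContDiffBump` with centre `1/(2(β-1))`) whose integrals are
near `1`. -/
def S_SAND : Prop :=
  ∀ β x c : ℝ, 1 < β → 0 ≤ c →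
    (∀ v : ℝ → ℝ, ContDiff ℝ ((⊤ : ℕ∞) : WithTop ℕ∞) v → HasCompactSupport v →
      Tendsto (fun n : ℕ => (P β)^[n] (fun y => (v y : ℂ)) x) atTop
        (𝓝 ((c : ℂ) * ∫ y, (v y : ℂ)))) →
    Tendsto (fun n : ℕ => f β n x) atTop (𝓝 c)

/-- Assembly. -/
theorem final (hCONV : S_CONV) (hLEB : S_LEB) (hINT : S_INT) (hARI : S_ARI) (hSMO : S_SMO)
    (hSAND : S_SAND) (β : ℝ) (hβ : 1 < β) (hβ2 : β < 2) (hac : bernoulliConv β ≪ volume) :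
    ∀ᵐ x ∂(volume : Measure ℝ), Tendsto (fun n : ℕ => f β n x) atTop
      (𝓝 ((bernoulliConv β).rnDeriv volume x).toReal) := by
  have := (hINT β hβ).1
  filter_upwards [hLEB (bernoulliConv β) β hβ hac] with x hx
  have hg : Good β x ((bernoulliConv β).rnDeriv volume x).toReal := by
    refine ⟨ENNReal.toReal_nonneg, fun ρ hρ hA => ?_⟩
    have h1 := hx ρ hρ hA
    have h2 : ∃ C : ℝ, ∀ y, ‖ρ y‖ ≤ C := by
      obtain ⟨A, hA⟩ := hA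
      refine ⟨|A|, fun y => (hA y).trans ?_⟩
      have h3 : (0 : ℝ) < 1 + y ^ 2 := by positivity
      rw [div_le_iff₀ h3]
      have h4 : |A| ≤ |A| * (1 + y ^ 2) := by nlinarith [abs_nonneg A, sq_nonneg y]
      exact (le_abs_self A).trans h4
    exact h1.congr fun n => (hCONV β hβ ρ hρ h2 n x).symm
  exact hSAND β x _ hβ ENNReal.toReal_nonneg
    (hSMO β x _ hβ hg (hARI β hβ hβ2 hac))

end Pool.Agent.Run7.h982.BC
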